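import Pool.Agent.Lib.MP_102662_an.FbDefs
import Pool.Agent.Lib.MP_102662_an.LogLoss

set_option autoImplicit false

namespace Pool.Agent.Results.MP_102662_an.NotHalfHolder

open Pool.Agent.Lib.MP_102662_an.Fb

/-- The function `log r + B` is not `1/2`-Hoelder on the set of Brjuno numbers in `(0, 1)`, with a
logarithmic loss: there are such numbers at arbitrarily small distance `t` at which the values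
differ by at least `c √t log (1 / t)`. -/
theorem result : ∃ c : ℝ, 0 < c ∧ ∀ δ : ℝ, 0 < δ → ∃ θ₁ θ₂ B₁ B₂ r₁ r₂ : ℝ,
    θ₁ ∈ Set.Ioo (0 : ℝ) 1 ∧ θ₂ ∈ Set.Ioo (0 : ℝ) 1 ∧ Irrational θ₁ ∧ Irrational θ₂ ∧ θ₁ ≠ θ₂ ∧
    |θ₁ - θ₂| < δ ∧ HasSum (brjunoTerm θ₁) B₁ ∧ HasSum (brjunoTerm θ₂) B₂ ∧ 0 < r₁ ∧ 0 < r₂ ∧
    minRadius θ₁ = ENNReal.ofReal r₁ ∧ minRadius θ₂ = ENNReal.ofReal r₂ ∧
    c * (Real.sqrt |θ₁ - θ₂| * Real.log (1 / |θ₁ - θ₂|)) ≤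
      (Real.log r₁ + B₁) - (Real.log r₂ + B₂) :=
  log_loss

/-- No constant `K` is a `1/2`-Hoelder constant. -/
theorem no_constant (K : ℝ) : ∃ θ₁ θ₂ B₁ B₂ r₁ r₂ : ℝ,
    θ₁ ∈ Set.Ioo (0 : ℝ) 1 ∧ θ₂ ∈ Set.Ioo (0 : ℝ) 1 ∧ Irrational θ₁ ∧ Irrational θ₂ ∧
    HasSum (brjunoTerm θ₁) B₁ ∧ HasSum (brjunoTerm θ₂) B₂ ∧ 0 < r₁ ∧ 0 < r₂ ∧
    minRadius θ₁ = ENNReal.ofReal r₁ ∧ minRadius θ₂ = ENNReal.ofReal r₂ ∧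
    K * Real.sqrt |θ₁ - θ₂| < (Real.log r₁ + B₁) - (Real.log r₂ + B₂) := by
  obtain ⟨c, hc, H⟩ := result
  obtain ⟨θ₁, θ₂, B₁, B₂, r₁, r₂, h1, h2, h3, h4, h5, h6, h7, h8, h9, h10, h11, h12, h13⟩ :=
    H (Real.exp (-(K / c))) (Real.exp_pos _)
  refine ⟨θ₁, θ₂, B₁, B₂, r₁, r₂, h1, h2, h3, h4, h7, h8, h9, h10, h11, h12, lt_of_lt_of_le ?_ h13⟩
  have ht : 0 < |θ₁ - θ₂| := abs_pos.2 (sub_ne_zero.2 h5)
  have h14 : K / c < Real.log (1 / |θ₁ - θ₂|) := by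
    have := Real.log_lt_log ht h6
    rw [Real.log_exp] at this
    rw [one_div, Real.log_inv]
    linarith
  rw [div_lt_iff₀ hc] at h14
  nlinarith [Real.sqrt_pos.2 ht]

end Pool.Agent.Results.MP_102662_an.NotHalfHolder
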